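import Pool.Agent.helper71.AA.Defs

/-! # Project AA, module H1: bound for the correlation factor. -/

namespace Pool.Agent.helper71.AA

open Finset

/-- each factor of the correlation product -/
lemma H1_factor (l p q : ℕ) (Q : Finset ℕ) (hl : l.Prime) (h2 : (200 : ℝ) ≤ (l : ℝ) - 1) :
    1 + 81 * (if l ∈ Nn Q p q then (l : ℝ) - 1 else 1) / ((l : ℝ) - 1) ^ 2 ≤
      (1 + 81 / ((l : ℝ) - 1) ^ 2) * (if l ∣ ((p : ℤ) - q).natAbs then 1 + 81 / ((l : ℝ) - 1) else 1) *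
        (if l ∣ p + q then 1 + 81 / ((l : ℝ) - 1) else 1) := by
  have hpos : (0 : ℝ) < (l : ℝ) - 1 := by linarith
  have hb : (1 : ℝ) ≤ 1 + 81 / ((l : ℝ) - 1) ^ 2 := by
    have : (0 : ℝ) ≤ 81 / ((l : ℝ) - 1) ^ 2 := by positivity
    linarith
  have hf : (1 : ℝ) ≤ 1 + 81 / ((l : ℝ) - 1) := by
    have : (0 : ℝ) ≤ 81 / ((l : ℝ) - 1) := by positivity
    linarith
  have hf1 : (1 : ℝ) ≤ (if l ∣ ((p : ℤ) - q).natAbs then 1 + 81 / ((l : ℝ) - 1) else 1) := by
    split_ifs <;> linarith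
  have hf2 : (1 : ℝ) ≤ (if l ∣ p + q then 1 + 81 / ((l : ℝ) - 1) else 1) := by
    split_ifs <;> linarith
  by_cases hN : l ∈ Nn Q p q
  · rw [if_pos hN]
    have e : 1 + 81 * ((l : ℝ) - 1) / ((l : ℝ) - 1) ^ 2 = 1 + 81 / ((l : ℝ) - 1) := by
      field_simp
    rw [e]
    have hd : (l : ℤ) ∣ (p : ℤ) ^ 2 - (q : ℤ) ^ 2 := by
      unfold Nn at hN
      exact (Finset.mem_filter.mp hN).2
    have hd2 : (l : ℤ) ∣ ((p : ℤ) - q) * ((p : ℤ) + q) := by
      have : ((p : ℤ) - q) * ((p : ℤ) + q) = (p : ℤ) ^ 2 - (q : ℤ) ^ 2 := by ring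
      rw [this]; exact hd
    rcases (Nat.prime_iff_prime_int.mp hl).dvd_or_dvd hd2 with h | h
    · have h' : l ∣ ((p : ℤ) - q).natAbs := Int.natCast_dvd.mp h
      rw [if_pos h']
      calc 1 + 81 / ((l : ℝ) - 1) = 1 * (1 + 81 / ((l : ℝ) - 1)) * 1 := by ring
        _ ≤ _ := by
          apply mul_le_mul _ hf2 (by norm_num) (by nlinarith)
          exact mul_le_mul_of_nonneg_right hb (by linarith)
    · have h' : l ∣ p + q := by
        have : ((l : ℕ) : ℤ) ∣ ((p + q : ℕ) : ℤ) := by push_cast; exact h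
        exact Int.natCast_dvd_natCast.mp this
      rw [if_pos h']
      apply le_mul_of_one_le_left (by linarith)
      nlinarith
  · rw [if_neg hN]
    have e : 1 + 81 * (1 : ℝ) / ((l : ℝ) - 1) ^ 2 = 1 + 81 / ((l : ℝ) - 1) ^ 2 := by ring
    rw [e]
    calc 1 + 81 / ((l : ℝ) - 1) ^ 2 = (1 + 81 / ((l : ℝ) - 1) ^ 2) * 1 * 1 := by ring
      _ ≤ _ := by
        apply mul_le_mul _ hf2 (by norm_num) (by nlinarith)
        exact mul_le_mul_of_nonneg_left hf1 (by linarith)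

/-- the product over the primes dividing m is bounded by Hd -/
lemma H1_Hd (w m : ℕ) (hm : m ≠ 0) (S : Finset ℕ) (hS : ∀ l ∈ S, l.Prime ∧ w < l) :
    ∏ l ∈ S, (if l ∣ m then 1 + 81 / ((l : ℝ) - 1) else 1) ≤ Hd w 81 m := by
  rw [← Finset.prod_filter]
  unfold Hd
  have hge : ∀ l : ℕ, l.Prime → (1 : ℝ) ≤ 1 + 81 / ((l : ℝ) - 1) := by
    intro l hl
    have h1 : (1 : ℝ) < l := by exact_mod_cast hl.one_lt
    have : (0 : ℝ) ≤ 81 / ((l : ℝ) - 1) := div_nonneg (by norm_num) (by linarith)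
    linarith
  apply Finset.prod_le_prod_of_subset_of_one_le
  · intro l hl
    rw [Finset.mem_filter] at hl ⊢
    exact ⟨Nat.mem_primeFactors.mpr ⟨(hS l hl.1).1, hl.2, hm⟩, (hS l hl.1).2⟩
  · intro l hl
    rw [Finset.mem_filter] at hl
    linarith [hge l (hS l hl.1).1]
  · intro l hl _
    rw [Finset.mem_filter] at hl
    exact hge l (Nat.prime_of_mem_primeFactors hl.1)

/-- the square of Hd for 81 is at most Hd for 200 -/
lemma H1_sq (w m : ℕ) (hw : 200 ≤ w) : Hd w 81 m ^ 2 ≤ Hd w 200 m := by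
  unfold Hd
  rw [← Finset.prod_pow]
  apply Finset.prod_le_prod
  · intro l hl
    positivity
  · intro l hl
    rw [Finset.mem_filter] at hl
    have h1 : (200 : ℝ) ≤ (l : ℝ) - 1 := by
      have : w + 1 ≤ l := hl.2
      have h2 : ((w + 1 : ℕ) : ℝ) ≤ (l : ℝ) := by exact_mod_cast this
      have h3 : (200 : ℝ) ≤ (w : ℝ) := by exact_mod_cast hw
      push_cast at h2
      linarith
    have hpos : (0 : ℝ) < (l : ℝ) - 1 := by linarith
    set t : ℝ := (l : ℝ) - 1 with ht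
    have e : (1 + 81 / t) ^ 2 = 1 + 162 / t + (6561 / t) / t := by
      field_simp; ring
    rw [e]
    have h4 : 6561 / t ≤ 38 := by
      rw [div_le_iff₀ hpos]; linarith
    have h5 : (6561 / t) / t ≤ 38 / t := div_le_div_of_nonneg_right h4 hpos.le
    have h6 : 1 + 200 / t = 1 + 162 / t + 38 / t := by ring
    rw [h6]; linarith

/-- Hd is at least one -/
lemma H1_one_le (w m : ℕ) (c : ℝ) (hc : 0 ≤ c) : 1 ≤ Hd w c m := by
  unfold Hd
  apply Finset.one_le_prod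
  intro l hl
  rw [Finset.mem_filter] at hl
  have h1 : (1 : ℝ) < l := by exact_mod_cast (Nat.prime_of_mem_primeFactors hl.1).one_lt
  have : (0 : ℝ) ≤ c / ((l : ℝ) - 1) := div_nonneg hc (by linarith)
  linarith

/-- the convergent product -/
lemma H1_conv (w : ℕ) (hw : 200 ≤ w) (S : Finset ℕ) (hS : ∀ l ∈ S, w < l) :
    ∏ l ∈ S, (1 + 81 / ((l : ℝ) - 1) ^ 2) ≤ 1 + 200 / (w : ℝ) := by
  have hwr : (200 : ℝ) ≤ (w : ℝ) := by exact_mod_cast hw
  have h1 : ∏ l ∈ S, (1 + 81 / ((l : ℝ) - 1) ^ 2) ≤ Real.exp (∑ l ∈ S, 81 / ((l : ℝ) - 1) ^ 2) := by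
    rw [Real.exp_sum]
    apply Finset.prod_le_prod
    · intro l hl
      positivity
    · intro l hl
      have := Real.add_one_le_exp (81 / ((l : ℝ) - 1) ^ 2)
      linarith
  have h2 : ∑ l ∈ S, 81 / ((l : ℝ) - 1) ^ 2 ≤ 81 / ((w : ℝ) - 1) := by
    have h3 : ∑ l ∈ S, (((l - 1 : ℕ) : ℝ) ^ 2)⁻¹ ≤ ((w - 1 : ℕ) : ℝ)⁻¹ := by
      set n := (S.sup id) + w with hn
      have hinj : Set.InjOn (fun l : ℕ => l - 1) (S : Set ℕ) := by
        intro a ha b hb hab
        have h4 := hS a ha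
        have h5 := hS b hb
        simp only at hab
        omega
      calc ∑ l ∈ S, (((l - 1 : ℕ) : ℝ) ^ 2)⁻¹ = ∑ i ∈ S.image (fun l : ℕ => l - 1), ((i : ℝ) ^ 2)⁻¹ := by
            rw [Finset.sum_image hinj]
        _ ≤ ∑ i ∈ Ioc (w - 1) n, ((i : ℝ) ^ 2)⁻¹ := by
            apply Finset.sum_le_sum_of_subset_of_nonneg
            · intro i hi
              rw [Finset.mem_image] at hi
              obtain ⟨l, hl, rfl⟩ := hi
              have h4 := hS l hl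
              have h5 : l ≤ S.sup id := Finset.le_sup (f := id) hl
              rw [Finset.mem_Ioc]
              omega
            · intro i _ _
              positivity
        _ ≤ ((w - 1 : ℕ) : ℝ)⁻¹ - (n : ℝ)⁻¹ := sum_Ioc_inv_sq_le_sub (by omega) (by omega)
        _ ≤ ((w - 1 : ℕ) : ℝ)⁻¹ := by
            have : (0 : ℝ) ≤ (n : ℝ)⁻¹ := by positivity
            linarith
    have h6 : ((w - 1 : ℕ) : ℝ) = (w : ℝ) - 1 := by
      rw [Nat.cast_sub (by omega)]; simp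
    calc ∑ l ∈ S, 81 / ((l : ℝ) - 1) ^ 2 = 81 * ∑ l ∈ S, (((l - 1 : ℕ) : ℝ) ^ 2)⁻¹ := by
          rw [Finset.mul_sum]
          apply Finset.sum_congr rfl
          intro l hl
          have h4 := hS l hl
          rw [Nat.cast_sub (by omega), Nat.cast_one, div_eq_mul_inv]
      _ ≤ 81 * ((w - 1 : ℕ) : ℝ)⁻¹ := mul_le_mul_of_nonneg_left h3 (by norm_num)
      _ = 81 / ((w : ℝ) - 1) := by rw [h6, div_eq_mul_inv]
  have hpos : (0 : ℝ) < (w : ℝ) - 1 := by linarith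
  set x : ℝ := 81 / ((w : ℝ) - 1) with hx
  have hx0 : 0 ≤ x := by positivity
  have hx1 : x ≤ 0.41 := by
    rw [hx, div_le_iff₀ hpos]; linarith
  have h7 : Real.exp x ≤ 1 + 1.41 * x := by
    have h8 := Real.abs_exp_sub_one_sub_id_le (x := x) (by rw [abs_of_nonneg hx0]; linarith)
    have h9 := (abs_le.mp h8).2
    nlinarith
  have h10 : 1.41 * x ≤ 200 / (w : ℝ) := by
    rw [hx, mul_div_assoc', div_le_div_iff₀ hpos (by linarith)]
    nlinarith
  calc ∏ l ∈ S, (1 + 81 / ((l : ℝ) - 1) ^ 2) ≤ Real.exp (∑ l ∈ S, 81 / ((l : ℝ) - 1) ^ 2) := h1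
    _ ≤ Real.exp x := Real.exp_le_exp.mpr h2
    _ ≤ 1 + 1.41 * x := h7
    _ ≤ 1 + 200 / (w : ℝ) := by linarith

/-- bound for the correlation factor -/
theorem Cf_le : ∃ C : ℝ, 0 < C ∧ ∀ w : ℕ, 200 ≤ w → ∀ Q : Finset ℕ, (∀ l ∈ Q, l.Prime ∧ w < l) →
    ∀ p q : ℕ, p.Prime → q.Prime → p ≠ q →
      Cf Q p q - 1 ≤ C / w + (Hd w 200 ((p : ℤ) - q).natAbs - 1) + (Hd w 200 (p + q) - 1) := by
  refine ⟨200, by norm_num, ?_⟩
  intro w hw Q hQ p q hp hq hpq
  have hwr : (200 : ℝ) ≤ (w : ℝ) := by exact_mod_cast hw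
  set S := (Q.erase p).erase q with hS
  have hSQ : ∀ l ∈ S, l ∈ Q := by
    intro l hl
    exact Finset.mem_of_mem_erase (Finset.mem_of_mem_erase hl)
  have hSp : ∀ l ∈ S, l.Prime ∧ w < l := fun l hl => hQ l (hSQ l hl)
  have hl200 : ∀ l ∈ S, (200 : ℝ) ≤ (l : ℝ) - 1 := by
    intro l hl
    have : w + 1 ≤ l := (hSp l hl).2
    have h2 : ((w + 1 : ℕ) : ℝ) ≤ (l : ℝ) := by exact_mod_cast this
    push_cast at h2
    linarith
  have hm1 : ((p : ℤ) - q).natAbs ≠ 0 := by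
    intro h
    rw [Int.natAbs_eq_zero] at h
    apply hpq
    exact_mod_cast (sub_eq_zero.mp h)
  have hm2 : p + q ≠ 0 := by
    have := hp.pos
    omega
  have hx1 := H1_Hd w _ hm1 S hSp
  have hx2 := H1_Hd w _ hm2 S hSp
  have hc := H1_conv w hw S (fun l hl => (hSp l hl).2)
  set x := Hd w 81 ((p : ℤ) - q).natAbs with hxd
  set y := Hd w 81 (p + q) with hyd
  have hx0 : 1 ≤ x := H1_one_le w _ 81 (by norm_num)
  have hy0 : 1 ≤ y := H1_one_le w _ 81 (by norm_num)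
  have hxs := H1_sq w ((p : ℤ) - q).natAbs hw
  have hys := H1_sq w (p + q) hw
  rw [← hxd] at hxs
  rw [← hyd] at hys
  set X := Hd w 200 ((p : ℤ) - q).natAbs with hXd
  set Y := Hd w 200 (p + q) with hYd
  have hX0 : 1 ≤ X := H1_one_le w _ 200 (by norm_num)
  have hY0 : 1 ≤ Y := H1_one_le w _ 200 (by norm_num)
  have hnn1 : 0 ≤ ∏ l ∈ S, (if l ∣ ((p : ℤ) - q).natAbs then 1 + 81 / ((l : ℝ) - 1) else 1) := by
    apply Finset.prod_nonneg
    intro l hl
    have h3 := hl200 l hl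
    have : (0 : ℝ) ≤ 81 / ((l : ℝ) - 1) := div_nonneg (by norm_num) (by linarith)
    split_ifs <;> linarith
  have hnn2 : 0 ≤ ∏ l ∈ S, (if l ∣ p + q then 1 + 81 / ((l : ℝ) - 1) else 1) := by
    apply Finset.prod_nonneg
    intro l hl
    have h3 := hl200 l hl
    have : (0 : ℝ) ≤ 81 / ((l : ℝ) - 1) := div_nonneg (by norm_num) (by linarith)
    split_ifs <;> linarith
  have hmain : Cf Q p q ≤ (1 + 200 / (w : ℝ)) * x * y := by
    calc Cf Q p q ≤ ∏ l ∈ S, ((1 + 81 / ((l : ℝ) - 1) ^ 2) *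
          (if l ∣ ((p : ℤ) - q).natAbs then 1 + 81 / ((l : ℝ) - 1) else 1) *
          (if l ∣ p + q then 1 + 81 / ((l : ℝ) - 1) else 1)) := by
          unfold Cf
          rw [← hS]
          apply Finset.prod_le_prod
          · intro l hl
            have h3 := hl200 l hl
            have : (0 : ℝ) ≤ 81 * (if l ∈ Nn Q p q then (l : ℝ) - 1 else 1) / ((l : ℝ) - 1) ^ 2 := by
              apply div_nonneg _ (by positivity)
              split_ifs <;> linarith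
            linarith
          · intro l hl
            exact H1_factor l p q Q (hSp l hl).1 (hl200 l hl)
      _ = (∏ l ∈ S, (1 + 81 / ((l : ℝ) - 1) ^ 2)) *
          (∏ l ∈ S, (if l ∣ ((p : ℤ) - q).natAbs then 1 + 81 / ((l : ℝ) - 1) else 1)) *
          ∏ l ∈ S, (if l ∣ p + q then 1 + 81 / ((l : ℝ) - 1) else 1) := by
          rw [Finset.prod_mul_distrib, Finset.prod_mul_distrib]
      _ ≤ (1 + 200 / (w : ℝ)) * x * y := by
          have h0 : (0 : ℝ) ≤ 1 + 200 / (w : ℝ) := by positivity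
          apply mul_le_mul _ hx2 hnn2 (mul_nonneg h0 (by linarith))
          exact mul_le_mul hc hx1 hnn1 h0
  have ht0 : (0 : ℝ) ≤ 200 / (w : ℝ) := by positivity
  have ht1 : 200 / (w : ℝ) ≤ 1 := by
    rw [div_le_one (by linarith)]; exact hwr
  set t := 200 / (w : ℝ) with ht
  have hxy : x * y ≤ (X + Y) / 2 := by nlinarith [sq_nonneg (x - y)]
  have h4 : (1 + t) * x * y ≤ (1 + t) * ((X + Y) / 2) := by
    rw [mul_assoc]
    exact mul_le_mul_of_nonneg_left hxy (by linarith)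
  have h5 : (1 - t) * ((X - 1) + (Y - 1)) ≥ 0 := mul_nonneg (by linarith) (by linarith)
  nlinarith

end Pool.Agent.helper71.AA
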